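import Mathlib

set_option autoImplicit false

/-!
# MP_633f17_co: the product bound for cross-(t,s) families fails, by an unbounded factor

For all `t ≥ 1`, `b ≥ 0` and `R` there is `s₀` such that for all `s ≥ s₀`, on a ground set of
`n = t + s + 2 b + 1` points, some cross-`(t,s)` families `F`, `G` satisfy
`|F| |G| > R m(n,t,s)²`.
-/

open Finset

namespace Pool.Agent.Results.MP_633f17_co.CrossProductFails

/-- `F` and `G` are cross-`(t,s)`: `|A ∩ B| ≥ t` and `|A ∪ B| ≤ n - s` for all `A ∈ F`, `B ∈ G`. -/
def IsCross (n t s : ℕ) (F G : Finset (Finset (Fin n))) : Prop :=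
  ∀ A ∈ F, ∀ B ∈ G, t ≤ (A ∩ B).card ∧ (A ∪ B).card + s ≤ n

open Classical in
/-- `m(n,t,s)`: the largest size of a `(t,s)`-family, i.e. of a family `F` of subsets of an
`n`-set with `|A ∩ B| ≥ t` and `|A ∪ B| ≤ n - s` for all `A, B ∈ F` (`A = B` allowed). -/
noncomputable def m (n t s : ℕ) : ℕ :=
  ((univ : Finset (Finset (Finset (Fin n)))).filter (fun F => IsCross n t s F F)).sup card

/-- number of sets with at most `b` elements -/
theorem small_card (n b : ℕ) (hn : 1 ≤ n) :
    ((univ : Finset (Finset (Fin n))).filter (fun X => X.card ≤ b)).card ≤ (b + 1) * n ^ b := by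
  have h1 : ((univ : Finset (Finset (Fin n))).filter (fun X => X.card ≤ b)) ⊆
      (range (b + 1)).biUnion (fun j => powersetCard j (univ : Finset (Fin n))) := by
    intro X hX
    rw [mem_filter] at hX
    rw [mem_biUnion]
    exact ⟨X.card, mem_range.2 (by omega), mem_powersetCard.2 ⟨subset_univ _, rfl⟩⟩
  refine (card_le_card h1).trans ?_
  have h2 := card_biUnion_le_card_mul (range (b + 1))
    (fun j => powersetCard j (univ : Finset (Fin n))) (n ^ b) (by
      intro j hj
      rw [mem_range] at hj
      rw [card_powersetCard, card_univ, Fintype.card_fin]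
      exact (Nat.choose_le_pow n j).trans (Nat.pow_le_pow_right hn (by omega)))
  rwa [card_range] at h2

/-- the constant in the upper bound -/
def KK (b : ℕ) : ℕ := (2 * b + 2) * (2 ^ (2 * b + 1) * (b + 1))

theorem upper (n t s b : ℕ) (hn : n = t + s + 2 * b + 1) (H : Finset (Finset (Fin n)))
    (hH : IsCross n t s H H) :
    H.card ≤ KK b * n ^ b := by
  classical
  rcases H.eq_empty_or_nonempty with rfl | ⟨A0, hA0⟩
  · simp
  -- distance bound
  have hdist : ∀ A ∈ H, ∀ B ∈ H, (symmDiff A B).card ≤ 2 * b + 1 := by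
    intro A hA B hB
    obtain ⟨h1, h2⟩ := hH A hA B hB
    have h3 : symmDiff A B = (A ∪ B) \ (A ∩ B) := by
      ext x
      simp only [mem_symmDiff, mem_sdiff, mem_union, mem_inter]
      tauto
    rw [h3, card_sdiff_of_subset (inter_subset_left.trans subset_union_left)]
    omega
  have hcov : H ⊆ (range (2 * b + 2)).biUnion
      (fun i => H.filter (fun A => (symmDiff A A0).card = i)) := by
    intro A hA
    rw [mem_biUnion]
    refine ⟨(symmDiff A A0).card, mem_range.2 ?_, mem_filter.2 ⟨hA, rfl⟩⟩
    have := hdist A hA A0 hA0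
    omega
  refine (card_le_card hcov).trans ?_
  have key : ∀ i ∈ range (2 * b + 2), (H.filter (fun A => (symmDiff A A0).card = i)).card ≤
      2 ^ (2 * b + 1) * ((b + 1) * n ^ b) := by
    intro i hi
    rw [mem_range] at hi
    rcases (H.filter (fun A => (symmDiff A A0).card = i)).eq_empty_or_nonempty with he | ⟨A1, hA1⟩
    · rw [he]; simp
    rw [mem_filter] at hA1
    obtain ⟨hA1, hc1⟩ := hA1
    set D := symmDiff A1 A0 with hD
    have hle : (H.filter (fun A => (symmDiff A A0).card = i)).card ≤
        (D.powerset ×ˢ ((univ : Finset (Finset (Fin n))).filter (fun X => X.card ≤ b))).card := by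
      apply card_le_card_of_injOn (fun A => (symmDiff A A0 ∩ D, symmDiff A A0 \ D))
      · intro A hA
        rw [mem_coe, mem_filter] at hA
        obtain ⟨hA, hcA⟩ := hA
        rw [mem_coe, mem_product]
        refine ⟨mem_powerset.2 inter_subset_right, mem_filter.2 ⟨mem_univ _, ?_⟩⟩
        show (symmDiff A A0 \ D).card ≤ b
        have h1 : symmDiff (symmDiff A A0) D = symmDiff A A1 := by
          rw [hD]
          ext x
          simp only [mem_symmDiff]
          tauto
        have h2 := hdist A hA A1 hA1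
        rw [← h1] at h2
        have h3 : (symmDiff (symmDiff A A0) D).card =
            (symmDiff A A0 \ D).card + (D \ symmDiff A A0).card := by
          rw [show symmDiff (symmDiff A A0) D = (symmDiff A A0 \ D) ∪ (D \ symmDiff A A0) from rfl,
            card_union_of_disjoint]
          rw [Finset.disjoint_left]
          intro x hx hx2
          rw [mem_sdiff] at hx hx2
          exact hx.2 hx2.1
        have h4 : (symmDiff A A0 \ D).card = (D \ symmDiff A A0).card := by
          have e1 := card_sdiff_add_card_inter (symmDiff A A0) D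
          have e2 := card_sdiff_add_card_inter D (symmDiff A A0)
          rw [inter_comm] at e2
          omega
        omega
      · intro A hA B hB hAB
        have h1 : symmDiff A A0 ∩ D = symmDiff B A0 ∩ D := (Prod.mk.inj hAB).1
        have h2 : symmDiff A A0 \ D = symmDiff B A0 \ D := (Prod.mk.inj hAB).2
        have h3 : symmDiff A A0 = symmDiff B A0 := by
          rw [← sdiff_union_inter (symmDiff A A0) D, ← sdiff_union_inter (symmDiff B A0) D, h1, h2]
        exact symmDiff_left_injective A0 h3
    refine hle.trans ?_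
    rw [card_product, card_powerset]
    apply Nat.mul_le_mul
    · exact Nat.pow_le_pow_right (by norm_num) (by omega)
    · exact small_card n b (by omega)
  have h5 := card_biUnion_le_card_mul _ _ _ key
  rw [card_range] at h5
  refine h5.trans (le_of_eq ?_)
  unfold KK
  ring

theorem m_le (n t s b : ℕ) (hn : n = t + s + 2 * b + 1) :
    m n t s ≤ KK b * n ^ b := by
  classical
  unfold m
  apply Finset.sup_le
  intro H hH
  rw [mem_filter] at hH
  exact upper n t s b hn H hH.2

theorem construct (n t s b : ℕ) (hn : n = t + s + 2 * b + 1) :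
    ∃ F G : Finset (Finset (Fin n)), IsCross n t s F G ∧
      F.card = (s + 2 * b + 1).choose b ∧ G.card = (s + 2 * b + 1).choose (b + 1) := by
  classical
  obtain ⟨T, -, hT⟩ := Finset.exists_subset_card_eq
    (show t ≤ (univ : Finset (Fin n)).card by
      rw [card_univ, Fintype.card_fin]; omega)
  have hTc : (Tᶜ).card = s + 2 * b + 1 := by
    rw [card_compl, Fintype.card_fin, hT]; omega
  have hinj : ∀ j : ℕ, ((powersetCard j Tᶜ).image (fun X => T ∪ X)).card =
      (s + 2 * b + 1).choose j := by
    intro j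
    rw [card_image_of_injOn, card_powersetCard, hTc]
    intro X hX Y hY hXY
    rw [mem_coe, mem_powersetCard] at hX hY
    have hXY' : T ∪ X = T ∪ Y := hXY
    have e1 : (T ∪ X) \ T = X := by
      rw [union_sdiff_left, sdiff_eq_self_of_disjoint]
      exact Finset.disjoint_left.2 fun x hx => mem_compl.1 (hX.1 hx)
    have e2 : (T ∪ Y) \ T = Y := by
      rw [union_sdiff_left, sdiff_eq_self_of_disjoint]
      exact Finset.disjoint_left.2 fun x hx => mem_compl.1 (hY.1 hx)
    rw [← e1, ← e2, hXY']
  refine ⟨(powersetCard b Tᶜ).image (fun X => T ∪ X),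
    (powersetCard (b + 1) Tᶜ).image (fun X => T ∪ X), ?_, hinj b, hinj (b + 1)⟩
  intro A hA B hB
  rw [mem_image] at hA hB
  obtain ⟨X, hX, rfl⟩ := hA
  obtain ⟨Y, hY, rfl⟩ := hB
  rw [mem_powersetCard] at hX hY
  constructor
  · rw [← hT]
    apply card_le_card
    intro x hx
    exact mem_inter.2 ⟨mem_union_left _ hx, mem_union_left _ hx⟩
  · have h1 : (T ∪ X) ∪ (T ∪ Y) ⊆ T ∪ (X ∪ Y) := by
      intro x hx
      simp only [mem_union] at hx ⊢
      tauto
    have h2 := card_le_card h1
    have h3 := card_union_le T (X ∪ Y)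
    have h4 := card_union_le X Y
    omega

theorem general (n t s b R : ℕ) (hn : n = t + s + 2 * b + 1)
    (hs : t + R * KK b ^ 2 * 16 ^ b * ((b + 1).factorial * b.factorial) ≤ s) :
    ∃ F G : Finset (Finset (Fin n)), IsCross n t s F G ∧ R * m n t s ^ 2 < F.card * G.card := by
  obtain ⟨F, G, hFG, hF, hG⟩ := construct n t s b hn
  refine ⟨F, G, hFG, ?_⟩
  have hm := m_le n t s b hn
  -- lower bounds for the binomials
  have h1 : (s + b + 2) ^ b ≤ b.factorial * F.card := by
    have := Nat.pow_le_choose (α := ℚ) b (s + 2 * b + 1)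
    rw [hF]
    have e : s + 2 * b + 1 + 1 - b = s + b + 2 := by omega
    rw [e] at this
    rw [div_le_iff₀ (by exact_mod_cast b.factorial_pos)] at this
    rw [mul_comm]
    exact_mod_cast this
  have h2 : (s + b + 1) ^ (b + 1) ≤ (b + 1).factorial * G.card := by
    have := Nat.pow_le_choose (α := ℚ) (b + 1) (s + 2 * b + 1)
    rw [hG]
    have e : s + 2 * b + 1 + 1 - (b + 1) = s + b + 1 := by omega
    rw [e] at this
    rw [div_le_iff₀ (by exact_mod_cast (b + 1).factorial_pos)] at this
    rw [mul_comm]
    exact_mod_cast this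
  set w := s + b + 1 with hw
  have h3 : w ^ (2 * b + 1) ≤ ((b + 1).factorial * b.factorial) * (F.card * G.card) := by
    calc w ^ (2 * b + 1) = w ^ b * w ^ (b + 1) := by rw [← pow_add]; congr 1; ring
      _ ≤ (s + b + 2) ^ b * w ^ (b + 1) :=
        Nat.mul_le_mul_right _ (Nat.pow_le_pow_left (by omega) _)
      _ ≤ (b.factorial * F.card) * ((b + 1).factorial * G.card) := Nat.mul_le_mul h1 h2
      _ = _ := by ring
  have h4 : n ≤ 4 * w := by omega
  have h5 : m n t s ^ 2 ≤ KK b ^ 2 * (16 ^ b * w ^ (2 * b)) := by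
    calc m n t s ^ 2 ≤ (KK b * n ^ b) ^ 2 := Nat.pow_le_pow_left hm 2
      _ ≤ (KK b * (4 * w) ^ b) ^ 2 :=
        Nat.pow_le_pow_left (Nat.mul_le_mul_left _ (Nat.pow_le_pow_left h4 _)) 2
      _ = KK b ^ 2 * (16 ^ b * w ^ (2 * b)) := by
        rw [mul_pow, mul_pow, mul_pow, ← pow_mul, ← pow_mul, show (16 : ℕ) = 4 ^ 2 by norm_num,
          ← pow_mul]
        ring
  have hP : 0 < (b + 1).factorial * b.factorial := Nat.mul_pos (Nat.factorial_pos _)
    (Nat.factorial_pos _)
  have h6 : R * KK b ^ 2 * 16 ^ b * ((b + 1).factorial * b.factorial) < w := by omega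
  have hwpos : 0 < w ^ (2 * b) := Nat.pow_pos (by omega)
  refine lt_of_mul_lt_mul_left (a := (b + 1).factorial * b.factorial) ?_ (Nat.zero_le _)
  calc (b + 1).factorial * b.factorial * (R * m n t s ^ 2)
      ≤ (b + 1).factorial * b.factorial * (R * (KK b ^ 2 * (16 ^ b * w ^ (2 * b)))) :=
        Nat.mul_le_mul_left _ (Nat.mul_le_mul_left _ h5)
    _ = (R * KK b ^ 2 * 16 ^ b * ((b + 1).factorial * b.factorial)) * w ^ (2 * b) := by ring
    _ < w * w ^ (2 * b) := Nat.mul_lt_mul_of_pos_right h6 hwpos
    _ = w ^ (2 * b + 1) := by ring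
    _ ≤ _ := h3

/-- The inequality `|F| |G| ≤ m(n,t,s)²` for cross-`(t,s)` families fails, for every `t ≥ 1`, every
odd value `2 b + 1` of `n - t - s` and all large `s`, by an arbitrarily large factor. -/
theorem result : ∀ t b R : ℕ, 1 ≤ t → ∃ s₀ : ℕ, ∀ s : ℕ, s₀ ≤ s →
    ∃ F G : Finset (Finset (Fin (t + s + 2 * b + 1))),
      IsCross (t + s + 2 * b + 1) t s F G ∧
        R * m (t + s + 2 * b + 1) t s ^ 2 < F.card * G.card := by
  intro t b R _
  exact ⟨t + R * KK b ^ 2 * 16 ^ b * ((b + 1).factorial * b.factorial),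
    fun s hs => general _ t s b R rfl hs⟩

end Pool.Agent.Results.MP_633f17_co.CrossProductFails
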